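import Pool.Agent.Run7.h820.UM.Stm
import Pool.Agent.Run7.h820.SR.BND

/-!
# Piece DQ of project UM (helper820): the lower bound for the difference quotient in the class `Σ`
-/

set_option autoImplicit false
open Complex Filter Topology Set Metric MeasureTheory

namespace Pool.Agent.Run7.h270.UM

open Q90.SM (IsSig)
open Pool.Agent.TH325.SI (la)
open Pool.Agent.W677.Mar (Sg IsG0 NN hat)

theorem one_div_sq_lt {ρ : ℝ} (hρ : 1 < ρ) : 1 / ρ ^ 2 < 1 := by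
  rw [div_lt_one (by positivity)]
  nlinarith

theorem la_le {ρ x : ℝ} (hρ : 1 < ρ) (h0 : 0 ≤ x) (h1 : x ≤ ρ⁻¹) : la x ≤ -Real.log (1 - 1 / ρ ^ 2) := by
  unfold la
  have hρ0 : 0 < ρ := by linarith
  have h2 : x ^ 2 ≤ 1 / ρ ^ 2 := by
    rw [one_div, ← inv_pow]
    exact pow_le_pow_left₀ h0 h1 2
  have h3 := one_div_sq_lt hρ
  have := Real.log_le_log (by linarith : 0 < 1 - 1 / ρ ^ 2) (by linarith : 1 - 1 / ρ ^ 2 ≤ 1 - x ^ 2)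
  linarith

theorem t_DQ : Run7.h820.UM.S_DQ := by
  intro ψ h hS ρ hρ z w hz hw
  have S : Sg (hat (fun z => ψ z / z) 1) (hat h 0) := (Q90.SM.ext_all ψ h hS).1
  obtain ⟨f, hf, hfe, hf0⟩ := Pool.Agent.W677.Mar.exists_log S
  have hρ0 : 0 < ρ := by linarith
  have hzp : 0 < ‖z‖ := by linarith
  have hwp : 0 < ‖w‖ := by linarith
  have hz0 : z ≠ 0 := norm_pos_iff.1 hzp
  have hw0 : w ≠ 0 := norm_pos_iff.1 hwp
  have hv0 : z⁻¹ ≠ 0 := inv_ne_zero hz0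
  have hζ0 : w⁻¹ ≠ 0 := inv_ne_zero hw0
  have hρi : ρ⁻¹ < 1 := inv_lt_one_of_one_lt₀ hρ
  have hvn : ‖z⁻¹‖ ≤ ρ⁻¹ := by
    rw [norm_inv]
    exact inv_anti₀ hρ0 hz
  have hζn : ‖w⁻¹‖ ≤ ρ⁻¹ := by
    rw [norm_inv]
    exact inv_anti₀ hρ0 hw
  have hv : z⁻¹ ∈ ball (0:ℂ) 1 := mem_ball_zero_iff.2 (lt_of_le_of_lt hvn hρi)
  have hζ : w⁻¹ ∈ ball (0:ℂ) 1 := mem_ball_zero_iff.2 (lt_of_le_of_lt hζn hρi)
  have hAc : ContinuousOn (fun u => f (w⁻¹, u)) (ball 0 1) := by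
    apply hf.comp (by fun_prop)
    intro u hu
    exact ⟨hζ, hu⟩
  have hAd : DifferentiableOn ℂ (fun u => f (w⁻¹, u)) (ball 0 1) :=
    Pool.Agent.W677.Mar.log_diff isOpen_ball hAc (Pool.Agent.W677.Mar.NN_diff S.G.diff hζ)
      (fun u hu => hfe _ hζ u hu)
  have hb := Run7.h820.SR.t_BND _ _ (fun u => f (w⁻¹, u)) w⁻¹ z⁻¹ S hζ0 hζ hv hAd (hf0 _ hζ)
    (fun u hu => hfe _ hζ u hu)
  have h3 := one_div_sq_lt hρ
  have h3' : 0 < 1 / ρ ^ 2 := by positivity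
  obtain ⟨L, hLdef⟩ : ∃ L : ℝ, L = -Real.log (1 - 1 / ρ ^ 2) := ⟨_, rfl⟩
  have hL : 0 ≤ L := by
    have := Real.log_nonpos (by linarith : 0 ≤ 1 - 1 / ρ ^ 2) (by linarith)
    linarith
  have hexpL : Real.exp (-L) = 1 - 1 / ρ ^ 2 := by
    rw [hLdef, neg_neg, Real.exp_log (by linarith)]
  have hA1 : la ‖w⁻¹‖ ≤ L := by
    rw [hLdef]
    exact la_le hρ (norm_nonneg _) hζn
  have hA2 : la ‖z⁻¹‖ ≤ L := by
    rw [hLdef]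
    exact la_le hρ (norm_nonneg _) hvn
  have hA3 : 0 ≤ la ‖z⁻¹‖ := Run7.h820.SR.la_log_nonneg (norm_nonneg _) (mem_ball_zero_iff.1 hv)
  have hb2 : ‖f (w⁻¹, z⁻¹)‖ ^ 2 ≤ L ^ 2 := by
    refine hb.trans ?_
    rw [sq]
    exact mul_le_mul hA1 hA2 hA3 hL
  have hb3 : ‖f (w⁻¹, z⁻¹)‖ ≤ L := le_of_sq_le_sq' hb2 hL
  have h5 : 1 - 1 / ρ ^ 2 ≤ ‖NN (hat (fun z => ψ z / z) 1) w⁻¹ z⁻¹‖ := by
    rw [← hfe _ hζ _ hv, Complex.norm_exp, ← hexpL]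
    apply Real.exp_le_exp.2
    have h6 := Complex.abs_re_le_norm (f (w⁻¹, z⁻¹))
    have h7 := neg_abs_le (f (w⁻¹, z⁻¹)).re
    linarith
  have h8 := Pool.Agent.W677.Mar.NN_mul (hat (fun z => ψ z / z) 1) w⁻¹ z⁻¹
  rw [Pool.Agent.W677.Mar.hat_ne _ _ hv0, Pool.Agent.W677.Mar.hat_ne _ _ hζ0, inv_inv, inv_inv] at h8
  have h9 : NN (hat (fun z => ψ z / z) 1) w⁻¹ z⁻¹ * (w - z) = ψ w - ψ z := by
    have e1 : w - z = (z⁻¹ - w⁻¹) * (z * w) := by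
      field_simp
    have e2 : ψ w - ψ z = (z⁻¹ * (ψ w / w) - w⁻¹ * (ψ z / z)) * (z * w) := by
      field_simp
    rw [e1, e2, ← mul_assoc, h8]
  have h10 : ‖ψ z - ψ w‖ = ‖NN (hat (fun z => ψ z / z) 1) w⁻¹ z⁻¹‖ * ‖z - w‖ := by
    rw [norm_sub_rev (ψ z), ← h9, norm_mul, norm_sub_rev w z]
  rw [h10, mul_comm]
  exact mul_le_mul_of_nonneg_right h5 (norm_nonneg _)
where
  le_of_sq_le_sq' {a b : ℝ} (h : a ^ 2 ≤ b ^ 2) (hb : 0 ≤ b) : a ≤ b := by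
    exact (abs_le_of_sq_le_sq' h hb).2

end Pool.Agent.Run7.h270.UM
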